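import Mathlib
import Pool.Agent.TH165.Tan2.Final

set_option autoImplicit false

open CategoryTheory Pool.Agent.TH165.Tan

/-- Tannaka duality does not pass to nilpotent thickenings: the comparison functors of `X₀` are
equivalences for all `T`, the one of the thickening `X` is not an equivalence for some affine
scheme `T`. -/
theorem Pool.Agent.Results.MP_5575af_ag.TannakaAllTargets.result :
    ∃ (X₀ X : Fib) (i : Mor X₀ X),
      X₀.IsAlgebraic ∧ X.IsAlgebraic ∧ i.IsNilpotentClosedImmersion ∧
      (∀ T : Fib, (omega X₀ T).IsEquivalence) ∧
      ∃ (B : Type) (_ : CommRing B), (Fib.spec B).IsAlgebraic ∧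
        ¬ (omega X (Fib.spec B)).IsEquivalence :=
  counterexample2
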